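import Pool.Agent.H7.GU.Stmts

set_option autoImplicit false

open Finset

namespace Pool.GU7

open Pool.Agent.H23.KT Pool.Agent.H46.KW Pool.KQ Pool.GT7

theorem NDM_pr {p w r : ℕ} (h : Pr8 p w r) : Pr0 p w r := by
  obtain ⟨h1, h2, h3⟩ := h
  exact ⟨h1, by omega, by omega⟩

/-- The numerical part. `A = a ^ b`. -/
theorem NDM_num (p w r : ℕ) (h : Pr8 p w r) (ε μ A N S1 S2 T κ c : ℝ)
    (hA : 0 < A) (hε : ε = e1 p / (128 * ((p : ℝ) + 3) ^ 3)) (hc : 1 ≤ c)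
    (h2 : N ≤ (1 + ε) * A) (h3 : μ * A - ε * A ≤ S1)
    (h5 : S2 ≤ μ * A + ((p : ℝ) + 1) / ((p : ℝ) + 2) * (μ ^ 2 * A) + ε * A)
    (h6 : κ ≤ c * S1 / ((p : ℝ) + 2) + ε * A)
    (h7 : μ ≤ (p : ℝ) + 2 - e1 p / 8)
    (h8 : m0 p - 1 / (4 * ((p : ℝ) + 1)) ≤ μ)
    (hT : T ≤ N)
    (hs : ((p : ℝ) + 2) * S1 - 2 * ((r : ℝ) - 1) * ((p : ℝ) + 2) * N - S2 +
      2 * ((r : ℝ) - 1) * S1 ≤ ((p : ℝ) + 3 - r) * (((p : ℝ) + 2) * T - S1))
    (t : ℝ) (ht : t * (256 * ((p : ℝ) + 3) ^ 3) ≤ e1 p) (ht0 : 0 ≤ t) :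
    κ ≤ (1 - t) * (c * T) := by
  have hp0 : (0 : ℝ) ≤ p := Nat.cast_nonneg p
  have he : 0 < e1 p := by unfold e1; positivity
  have he1 : e1 p ≤ 1 := by
    unfold e1
    rw [div_le_one (by positivity)]
    have : (1 : ℝ) ≤ ((p : ℝ) + 3) ^ 3 := one_le_pow₀ (by linarith)
    linarith
  have hr2 : (2 : ℝ) ≤ r := by exact_mod_cast h.r2
  have hrb : 4 * (r : ℝ) ≤ p + 3 := by exact_mod_cast h.rb
  have hb3 : (0 : ℝ) < ((p : ℝ) + 3) ^ 3 := by positivity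
  have hε0 : 0 < ε := by rw [hε]; positivity
  have hεe : ε * (128 * ((p : ℝ) + 3) ^ 3) = e1 p := by
    rw [hε]; field_simp
  have hb27 : (27 : ℝ) ≤ ((p : ℝ) + 3) ^ 3 := by
    have : (3 : ℝ) ^ 3 ≤ ((p : ℝ) + 3) ^ 3 := pow_le_pow_left₀ (by norm_num) (by linarith) 3
    linarith
  have hε1 : ε ≤ 1 := by nlinarith
  have hμ : 0 ≤ ((p : ℝ) + 2) - μ - e1 p / 8 := by linarith
  -- the second factor
  have hf : 1 / (4 * ((p : ℝ) + 2)) ≤ μ * (((p : ℝ) + 1) / ((p : ℝ) + 2)) - 2 * ((r : ℝ) - 1) := by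
    have e0 : m0 p - 1 / (4 * ((p : ℝ) + 1)) = ((p : ℝ) * (p + 1) / 2 - 3 / 4) / (p + 1) := by
      unfold m0
      field_simp
      ring
    rw [e0] at h8
    have h9 : ((p : ℝ) * (p + 1) / 2 - 3 / 4) / (p + 1) * (((p : ℝ) + 1) / ((p : ℝ) + 2)) ≤
        μ * (((p : ℝ) + 1) / ((p : ℝ) + 2)) := mul_le_mul_of_nonneg_right h8 (by positivity)
    have h10 : ((p : ℝ) * (p + 1) / 2 - 3 / 4) / (p + 1) * (((p : ℝ) + 1) / ((p : ℝ) + 2)) =
        1 / (4 * ((p : ℝ) + 2)) + ((p : ℝ) - 1) / 2 := by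
      field_simp
      ring
    rw [h10] at h9
    linarith
  have hf0 : 0 < 1 / (4 * ((p : ℝ) + 2)) := by positivity
  have hprod : e1 p / 8 * (1 / (4 * ((p : ℝ) + 2))) ≤
      ((p : ℝ) + 2 - μ) * (μ * (((p : ℝ) + 1) / ((p : ℝ) + 2)) - 2 * ((r : ℝ) - 1)) :=
    mul_le_mul (by linarith) hf hf0.le (by linarith)
  have hexp : ((p : ℝ) + 2 - μ) * (μ * (((p : ℝ) + 1) / ((p : ℝ) + 2)) - 2 * ((r : ℝ) - 1)) =
      ((p : ℝ) + 1 + 2 * ((r : ℝ) - 1)) * μ - 2 * ((r : ℝ) - 1) * ((p : ℝ) + 2) -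
        ((p : ℝ) + 1) / ((p : ℝ) + 2) * μ ^ 2 := by
    field_simp
    ring
  rw [hexp] at hprod
  -- the lower bound of the left side
  have hl : (e1 p / 8 * (1 / (4 * ((p : ℝ) + 2))) - ε * (2 * ((p : ℝ) + 3) ^ 2)) * A ≤
      ((p : ℝ) + 2) * S1 - 2 * ((r : ℝ) - 1) * ((p : ℝ) + 2) * N - S2 +
      2 * ((r : ℝ) - 1) * S1 := by
    have q1 : ((p : ℝ) + 2 + 2 * ((r : ℝ) - 1)) * (μ * A - ε * A) ≤
        ((p : ℝ) + 2 + 2 * ((r : ℝ) - 1)) * S1 := mul_le_mul_of_nonneg_left h3 (by linarith)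
    have q2 : 2 * ((r : ℝ) - 1) * ((p : ℝ) + 2) * N ≤
        2 * ((r : ℝ) - 1) * ((p : ℝ) + 2) * ((1 + ε) * A) :=
      mul_le_mul_of_nonneg_left h2 (by
        have : 0 ≤ (r : ℝ) - 1 := by linarith
        positivity)
    have q3 : (e1 p / 8 * (1 / (4 * ((p : ℝ) + 2)))) * A ≤
        (((p : ℝ) + 1 + 2 * ((r : ℝ) - 1)) * μ - 2 * ((r : ℝ) - 1) * ((p : ℝ) + 2) -
        ((p : ℝ) + 1) / ((p : ℝ) + 2) * μ ^ 2) * A := mul_le_mul_of_nonneg_right hprod hA.le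
    have q4 : ε * A * ((p : ℝ) + 2 + 2 * ((r : ℝ) - 1) + 2 * ((r : ℝ) - 1) * ((p : ℝ) + 2) + 1) ≤
        ε * A * (2 * ((p : ℝ) + 3) ^ 2) := by
      apply mul_le_mul_of_nonneg_left _ (by positivity)
      nlinarith
    linarith
  have hb : 0 < (p : ℝ) + 3 - r := by linarith
  have hl2 : e1 p / (64 * ((p : ℝ) + 3)) * A ≤
      ((p : ℝ) + 3 - r) * (((p : ℝ) + 2) * T - S1) := by
    refine le_trans ?_ (hl.trans hs)
    apply mul_le_mul_of_nonneg_right _ hA.le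
    have e3 : ε * (2 * ((p : ℝ) + 3) ^ 2) = e1 p / (64 * ((p : ℝ) + 3)) := by
      rw [hε]; field_simp; norm_num
    have e4 : e1 p / 8 * (1 / (4 * ((p : ℝ) + 2))) = e1 p / (32 * ((p : ℝ) + 2)) := by
      field_simp; norm_num
    rw [e3, e4]
    have e5 : e1 p / (32 * ((p : ℝ) + 3)) ≤ e1 p / (32 * ((p : ℝ) + 2)) :=
      div_le_div_of_nonneg_left he.le (by positivity) (by linarith)
    have e6 : e1 p / (32 * ((p : ℝ) + 3)) = 2 * (e1 p / (64 * ((p : ℝ) + 3))) := by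
      field_simp; norm_num
    linarith
  have hpos : 0 < ((p : ℝ) + 2) * T - S1 := by
    have : 0 < ((p : ℝ) + 3 - r) * (((p : ℝ) + 2) * T - S1) := lt_of_lt_of_le (by positivity) hl2
    exact (pos_iff_pos_of_mul_pos this).mp hb
  have hl3 : e1 p / (64 * ((p : ℝ) + 3)) * A ≤ ((p : ℝ) + 3) * (((p : ℝ) + 2) * T - S1) :=
    hl2.trans (mul_le_mul_of_nonneg_right (by linarith) hpos.le)
  have hl4 : e1 p / (64 * ((p : ℝ) + 3) ^ 2) * A ≤ ((p : ℝ) + 2) * T - S1 := by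
    have e7 : e1 p / (64 * ((p : ℝ) + 3)) * A =
        ((p : ℝ) + 3) * (e1 p / (64 * ((p : ℝ) + 3) ^ 2) * A) := by
      field_simp
    rw [e7] at hl3
    exact le_of_mul_le_mul_left hl3 (by positivity)
  -- conclusion
  have k1 : c * S1 / ((p : ℝ) + 2) ≤ c * T - c * (e1 p / (64 * ((p : ℝ) + 3) ^ 3) * A) := by
    have k2 : S1 ≤ ((p : ℝ) + 2) * T - e1 p / (64 * ((p : ℝ) + 3) ^ 2) * A := by linarith
    have k3 : c * S1 / ((p : ℝ) + 2) ≤
        c * (((p : ℝ) + 2) * T - e1 p / (64 * ((p : ℝ) + 3) ^ 2) * A) / ((p : ℝ) + 2) := by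
      apply div_le_div_of_nonneg_right _ (by positivity)
      exact mul_le_mul_of_nonneg_left k2 (by linarith)
    refine k3.trans ?_
    have k4 : c * (((p : ℝ) + 2) * T - e1 p / (64 * ((p : ℝ) + 3) ^ 2) * A) / ((p : ℝ) + 2) =
        c * T - c * (e1 p / (64 * (((p : ℝ) + 3) ^ 2 * ((p : ℝ) + 2))) * A) := by
      field_simp
    rw [k4]
    have k5 : e1 p / (64 * ((p : ℝ) + 3) ^ 3) ≤
        e1 p / (64 * (((p : ℝ) + 3) ^ 2 * ((p : ℝ) + 2))) := by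
      apply div_le_div_of_nonneg_left he.le (by positivity)
      have : ((p : ℝ) + 3) ^ 2 * ((p : ℝ) + 2) ≤ ((p : ℝ) + 3) ^ 3 := by
        have : 0 ≤ ((p : ℝ) + 3) ^ 2 := by positivity
        nlinarith
      linarith
    have k6 : c * (e1 p / (64 * ((p : ℝ) + 3) ^ 3) * A) ≤
        c * (e1 p / (64 * (((p : ℝ) + 3) ^ 2 * ((p : ℝ) + 2))) * A) :=
      mul_le_mul_of_nonneg_left (mul_le_mul_of_nonneg_right k5 hA.le) (by linarith)
    linarith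
  have k7 : e1 p / (64 * ((p : ℝ) + 3) ^ 3) = 2 * ε := by
    rw [hε]; field_simp; norm_num
  rw [k7] at k1
  have k8 : ε * A ≤ c * (ε * A) := le_mul_of_one_le_left (by positivity) hc
  have k9 : t * (c * T) ≤ c * (ε * A) := by
    have m1 : T ≤ 2 * A := by
      have : (1 + ε) * A ≤ 2 * A := mul_le_mul_of_nonneg_right (by linarith) hA.le
      linarith
    have m2 : t * (c * T) ≤ t * (c * (2 * A)) := by
      apply mul_le_mul_of_nonneg_left _ ht0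
      exact mul_le_mul_of_nonneg_left m1 (by linarith)
    have m3 : 2 * t ≤ ε := by
      rw [← hεe] at ht
      nlinarith
    have m4 : c * A * (2 * t) ≤ c * A * ε := mul_le_mul_of_nonneg_left m3 (by positivity)
    linarith
  linarith

theorem NDM_thm (hG : GC8Stmt) (hP : PRFStmt) (hC : CCK0Stmt) (hO : GCO0Stmt) : NDMStmt := by
  intro p w r h
  have h0 := NDM_pr h
  have hp0 : (0 : ℝ) ≤ p := Nat.cast_nonneg p
  have he : 0 < e1 p := by unfold e1; positivity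
  set ε : ℝ := e1 p / (128 * ((p : ℝ) + 3) ^ 3) with hε
  have hε0 : 0 < ε := by positivity
  obtain ⟨e₀, he₀, hP1⟩ := hP p ε hε0
  refine ⟨min e₀ (e1 p / 2), lt_min he₀ (by positivity), fun C => ?_⟩
  obtain ⟨a₀, hP2⟩ := hP1 C
  refine ⟨max a₀ 1, fun a ha V _ G e W P U hStr he0 hee hCB z hz hn => ?_⟩
  have ha0 : a₀ ≤ a := le_trans (le_max_left _ _) ha
  have ha1 : 1 ≤ a := le_trans (le_max_right _ _) ha
  have haR : (0 : ℝ) < a := by exact_mod_cast ha1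
  obtain ⟨-, p2, p3, -, p5, p6, p7⟩ := hP2 a ha0 G e W P U hStr he0 (hee.trans (min_le_left _ _)) hCB z hz
  obtain ⟨c1, -, -, -⟩ := hC G p w r a e C W P U h0 hStr he0 (hee.trans (min_le_right _ _)) hCB z hz
  obtain ⟨g1, g2, -⟩ := hG p w r h
  obtain ⟨o1, -⟩ := hO p w r h0
  have hwp := h.wp
  set X := un P with hX
  set μ : ℝ := ((nb G X z).card : ℝ) / a with hμ
  have hμn : ((nb G X z).card : ℝ) = μ * a := by rw [hμ]; field_simp
  have hA : (0 : ℝ) < (a : ℝ) ^ (p + 3) := by positivity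
  have hch : 1 ≤ (p + 2).choose (w + 1) := Nat.choose_pos (by omega)
  have hch' : (1 : ℝ) ≤ ((p + 2).choose (w + 1) : ℝ) := by exact_mod_cast hch
  have hT : TZ G p r X z ≤ (kc G X (p + 3) : ℝ) := by
    unfold TZ
    have : (kc G X (p + 3) : ℝ) = ∑ L ∈ clq G X (p + 3), (1 : ℝ) := by
      rw [sum_const, nsmul_eq_mul, mul_one]
      rfl
    rw [this]
    exact sum_le_sum fun L hL => (o1 _ (c1 L hL)).2.1
  have hs : ((p : ℝ) + 2) * (∑ L ∈ clq G X (p + 3), ((nb G L z).card : ℝ)) -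
      2 * ((r : ℝ) - 1) * ((p : ℝ) + 2) * (kc G X (p + 3) : ℝ) -
      (∑ L ∈ clq G X (p + 3), ((nb G L z).card : ℝ) ^ 2) +
      2 * ((r : ℝ) - 1) * (∑ L ∈ clq G X (p + 3), ((nb G L z).card : ℝ)) ≤
      ((p : ℝ) + 3 - r) * (((p : ℝ) + 2) * TZ G p r X z -
        ∑ L ∈ clq G X (p + 3), ((nb G L z).card : ℝ)) := by
    have s1 : ∑ L ∈ clq G X (p + 3), (((p : ℝ) + 2 - (nb G L z).card) *
        ((nb G L z).card - 2 * ((r : ℝ) - 1))) ≤
        ∑ L ∈ clq G X (p + 3), (((p : ℝ) + 3 - r) * (((p : ℝ) + 2) * ww p r (nb G L z).card -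
          (nb G L z).card)) := sum_le_sum fun L hL => g1 _ (c1 L hL)
    have s2 : ∑ L ∈ clq G X (p + 3), (((p : ℝ) + 2 - (nb G L z).card) *
        ((nb G L z).card - 2 * ((r : ℝ) - 1))) =
        ((p : ℝ) + 2) * (∑ L ∈ clq G X (p + 3), ((nb G L z).card : ℝ)) -
      2 * ((r : ℝ) - 1) * ((p : ℝ) + 2) * (kc G X (p + 3) : ℝ) -
      (∑ L ∈ clq G X (p + 3), ((nb G L z).card : ℝ) ^ 2) +
      2 * ((r : ℝ) - 1) * (∑ L ∈ clq G X (p + 3), ((nb G L z).card : ℝ)) := by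
      have : (kc G X (p + 3) : ℝ) = ∑ L ∈ clq G X (p + 3), (1 : ℝ) := by
        rw [sum_const, nsmul_eq_mul, mul_one]
        rfl
      rw [this, mul_sum, mul_sum, mul_sum, ← sum_sub_distrib, ← sum_sub_distrib, ← sum_add_distrib]
      exact sum_congr rfl fun L _ => by ring
    have s3 : ∑ L ∈ clq G X (p + 3), (((p : ℝ) + 3 - r) * (((p : ℝ) + 2) *
        ww p r (nb G L z).card - (nb G L z).card)) =
        ((p : ℝ) + 3 - r) * (((p : ℝ) + 2) * TZ G p r X z -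
        ∑ L ∈ clq G X (p + 3), ((nb G L z).card : ℝ)) := by
      unfold TZ
      rw [← mul_sum, sum_sub_distrib, ← mul_sum]
    rw [← s2, ← s3]
    exact s1
  have h6 : (kc G (nb G X z) (w + 1) : ℝ) * (a : ℝ) ^ (p + 3 - (w + 1)) ≤
      ((p + 2).choose (w + 1) : ℝ) * (∑ L ∈ clq G X (p + 3), ((nb G L z).card : ℝ)) /
        ((p : ℝ) + 2) + ε * (a : ℝ) ^ (p + 3) := by
    refine (p6 (w + 1) (by omega)).trans ?_
    have : ∑ L ∈ clq G X (p + 3), ((nb G L z).card.choose (w + 1) : ℝ) ≤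
        ((p + 2).choose (w + 1) : ℝ) * (∑ L ∈ clq G X (p + 3), ((nb G L z).card : ℝ)) /
        ((p : ℝ) + 2) := by
      rw [le_div_iff₀ (by positivity), sum_mul, mul_sum]
      refine sum_le_sum fun L hL => ?_
      rw [mul_comm ((p + 2).choose (w + 1) : ℝ)]
      exact g2 _ (c1 L hL)
    linarith
  have pw1 : (a : ℝ) ^ (p + 3) = (a : ℝ) ^ (p + 2) * a := by rw [← pow_succ]
  have pw2 : (a : ℝ) ^ (p + 3) = (a : ℝ) ^ (p + 1) * a ^ 2 := by rw [← pow_add]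
  have t0 : et p w * (256 * ((p : ℝ) + 3) ^ 3) ≤ e1 p := by
    have : et p w * (256 * ((p : ℝ) + 3) ^ 3) =
        e1 p / (((w : ℝ) + 2) * (p + 2).choose (w + 1)) := by
      unfold et
      have : ((p + 2).choose (w + 1) : ℝ) ≠ 0 := by positivity
      field_simp
    rw [this]
    apply div_le_self he.le
    have hw : (0 : ℝ) ≤ w := Nat.cast_nonneg w
    nlinarith
  have t1 : 0 ≤ et p w := by unfold et; positivity
  have key := NDM_num p w r h ε μ ((a : ℝ) ^ (p + 3)) (kc G X (p + 3)) _ _ (TZ G p r X z)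
    ((kc G (nb G X z) (w + 1) : ℝ) * (a : ℝ) ^ (p + 3 - (w + 1))) ((p + 2).choose (w + 1))
    hA hε hch' p2
    (by
      refine le_trans (le_of_eq ?_) p3
      rw [hμn, pw1]; ring)
    (by
      refine p5.trans (le_of_eq ?_)
      rw [hμn]
      have : μ * a * (a : ℝ) ^ (p + 2) = μ * (a : ℝ) ^ (p + 3) := by rw [pw1]; ring
      rw [this]
      have : ((p : ℝ) + 1) / ((p : ℝ) + 2) * (μ * a) ^ 2 * (a : ℝ) ^ (p + 1) =
          ((p : ℝ) + 1) / ((p : ℝ) + 2) * (μ ^ 2 * (a : ℝ) ^ (p + 3)) := by rw [pw2]; ring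
      rw [this])
    h6
    (by
      rw [hμ, div_le_iff₀ haR]; exact p7)
    (by
      rw [hμ, le_div_iff₀ haR]; exact hn)
    hT hs (et p w) t0 t1
  unfold nd
  apply max_eq_left
  have pw3 : (a : ℝ) ^ (p + 3) = (a : ℝ) ^ (p + 3 - (w + 1)) * (a : ℝ) ^ (w + 1) := by
    rw [← pow_add]; congr 1; omega
  have hd : (0 : ℝ) < (a : ℝ) ^ (p + 3 - (w + 1)) := by positivity
  have e9 : (1 - et p w) * ((p + 2).choose (w + 1) * (a : ℝ) ^ (w + 1) / (a : ℝ) ^ (p + 3)) *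
      TZ G p r X z = (1 - et p w) * ((p + 2).choose (w + 1) * TZ G p r X z) /
        (a : ℝ) ^ (p + 3 - (w + 1)) := by
    rw [pw3]
    have : (a : ℝ) ^ (w + 1) ≠ 0 := by positivity
    field_simp
  rw [e9, sub_nonpos, le_div_iff₀ hd]
  exact key

end Pool.GU7
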