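import Pool.Agent.H7.GU.Stmts

set_option autoImplicit false

open Finset

namespace Pool.GU7

open Pool.Agent.H23.KT Pool.Agent.H46.KW Pool.KQ Pool.GT7

theorem NUX0_ev (p w r : ℕ) (hp : Pr0 p w r) : ∃ a₀ : ℕ, ∀ a ≥ a₀, 1 ≤ a ∧
    ((p + 1).choose w : ℝ) * ((a : ℝ) + 1) ^ w + (2 * ((p + 2).choose (w + 1) : ℝ) - (p + 1).choose w - 1 / 2) * (a : ℝ) ^ w ≤
      2 * ((p + 2).choose (w + 1) : ℝ) * (a : ℝ) ^ (w + 1) * (((p : ℝ) + 4) * a) /
        (((a : ℝ) + r) * (((p : ℝ) + 4) * a + r)) := by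
  have hp4 : (0 : ℝ) < (p : ℝ) + 4 := by positivity
  have t1 : Filter.Tendsto (fun a : ℕ => ((p + 1).choose w : ℝ) * (1 + 1 / (a : ℝ)) ^ w + (2 * ((p + 2).choose (w + 1) : ℝ) - (p + 1).choose w - 1 / 2))
      Filter.atTop (nhds (((p + 1).choose w : ℝ) * (1 + 0) ^ w + (2 * ((p + 2).choose (w + 1) : ℝ) - (p + 1).choose w - 1 / 2))) := by
    have := tendsto_const_div_atTop_nhds_zero_nat (1 : ℝ)
    exact (((this.const_add 1).pow w).const_mul _).add_const _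
  have t2 : Filter.Tendsto (fun a : ℕ => 2 * ((p + 2).choose (w + 1) : ℝ) /
      ((1 + (r : ℝ) / (a : ℝ)) * (1 + ((r : ℝ) / ((p : ℝ) + 4)) / (a : ℝ))))
      Filter.atTop (nhds (2 * ((p + 2).choose (w + 1) : ℝ) / ((1 + 0) * (1 + 0)))) := by
    have h1 := (tendsto_const_div_atTop_nhds_zero_nat (r : ℝ)).const_add 1
    have h2 := (tendsto_const_div_atTop_nhds_zero_nat ((r : ℝ) / ((p : ℝ) + 4))).const_add 1
    exact tendsto_const_nhds.div (h1.mul h2) (by norm_num)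
  have hlt : ((p + 1).choose w : ℝ) * (1 + 0) ^ w + (2 * ((p + 2).choose (w + 1) : ℝ) - (p + 1).choose w - 1 / 2) <
      2 * ((p + 2).choose (w + 1) : ℝ) / ((1 + 0) * (1 + 0)) := by
    have e : (p + 2).choose (w + 1) = (p + 1).choose w + (p + 1).choose (w + 1) :=
      Nat.choose_succ_succ (p + 1) w
    have c1 : 1 ≤ (p + 1).choose w := Nat.choose_pos (by have := hp.wp; omega)
    have c2 : 1 ≤ (p + 1).choose (w + 1) := Nat.choose_pos (by have := hp.wp; omega)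
    have c1' : (1 : ℝ) ≤ ((p + 1).choose w : ℝ) := by exact_mod_cast c1
    have c2' : (1 : ℝ) ≤ ((p + 1).choose (w + 1) : ℝ) := by exact_mod_cast c2
    rw [e]
    push_cast
    norm_num
    linarith
  have hev := (t1.eventually_lt t2 hlt).and (Filter.eventually_ge_atTop 1)
  obtain ⟨a₀, h⟩ := Filter.eventually_atTop.mp hev
  refine ⟨a₀, fun a ha => ?_⟩
  obtain ⟨h1, h2⟩ := h a ha
  refine ⟨h2, ?_⟩
  have hA : (0 : ℝ) < (a : ℝ) := by exact_mod_cast h2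
  have e1 : ((a : ℝ) + 1) ^ w = (a : ℝ) ^ w * (1 + 1 / (a : ℝ)) ^ w := by
    rw [← mul_pow]
    congr 1
    field_simp
  have e2 : 2 * ((p + 2).choose (w + 1) : ℝ) * (a : ℝ) ^ (w + 1) * (((p : ℝ) + 4) * a) /
        (((a : ℝ) + r) * (((p : ℝ) + 4) * a + r)) = (a : ℝ) ^ w *
      (2 * ((p + 2).choose (w + 1) : ℝ) /
      ((1 + (r : ℝ) / (a : ℝ)) * (1 + ((r : ℝ) / ((p : ℝ) + 4)) / (a : ℝ)))) := by
    have : (0 : ℝ) ≤ (r : ℝ) := Nat.cast_nonneg r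
    have h3 : (a : ℝ) + r ≠ 0 := by positivity
    have h4 : ((p : ℝ) + 4) * a + r ≠ 0 := by positivity
    have h5 : 1 + (r : ℝ) / (a : ℝ) = ((a : ℝ) + r) / a := by field_simp
    have h6 : 1 + ((r : ℝ) / ((p : ℝ) + 4)) / (a : ℝ) =
        (((p : ℝ) + 4) * a + r) / (((p : ℝ) + 4) * a) := by field_simp
    rw [h5, h6, pow_succ]
    field_simp
  rw [e1, e2]
  have hw : (0 : ℝ) ≤ (a : ℝ) ^ w := by positivity
  have := mul_le_mul_of_nonneg_left h1.le hw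
  calc ((p + 1).choose w : ℝ) * ((a : ℝ) ^ w * (1 + 1 / (a : ℝ)) ^ w) + (2 * ((p + 2).choose (w + 1) : ℝ) - (p + 1).choose w - 1 / 2) * (a : ℝ) ^ w
      = (a : ℝ) ^ w * (((p + 1).choose w : ℝ) * (1 + 1 / (a : ℝ)) ^ w + (2 * ((p + 2).choose (w + 1) : ℝ) - (p + 1).choose w - 1 / 2)) := by ring
    _ ≤ _ := this

theorem NUX0_t1 (hT : TTRStmt) (p w r a : ℕ) (hp : Pr0 p w r) (i : ℕ) : i ≤ r - 1 →
    (TT (p + 2) (w + 1) a (r - 1) : ℝ) - i * (((p + 1).choose w : ℝ) * ((a : ℝ) + 1) ^ w) ≤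
      TT (p + 2) (w + 1) a (r - 1 - i) := by
  have h1 := hp.r1
  have h2 := hp.rp
  induction i with
  | zero => intro _; simp
  | succ i ih =>
    intro hi
    have ih' := ih (by omega)
    have e := hT.1 (p + 1) w a (r - 1 - (i + 1)) (by omega)
    have e' : r - 1 - (i + 1) + 1 = r - 1 - i := by omega
    rw [e'] at e
    have e2 : (TT (p + 2) (w + 1) a (r - 1 - i) : ℝ) =
        TT (p + 2) (w + 1) a (r - 1 - (i + 1)) + TT (p + 1) w a (r - 1 - (i + 1)) := by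
      exact_mod_cast e
    have b := (hT.2.2.1 (p + 1) w a (r - 1 - (i + 1)) (by omega)).2
    have b' : (TT (p + 1) w a (r - 1 - (i + 1)) : ℝ) ≤
        ((p + 1).choose w : ℝ) * ((a : ℝ) + 1) ^ w := by
      exact_mod_cast b
    push_cast
    linarith

theorem NUX0_t2 (hT : TTRStmt) (p w r a : ℕ) (hp : Pr0 p w r) (x : ℕ) : x ≤ r →
    (x : ℝ) * (TT (p + 2) (w + 1) a (r - 1) : ℝ) -
      (x.choose 2 : ℝ) * (((p + 1).choose w : ℝ) * ((a : ℝ) + 1) ^ w) ≤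
      (TT (p + 3) (w + 2) a r : ℝ) - TT (p + 3) (w + 2) a (r - x) := by
  have h1 := hp.r1
  have h2 := hp.rp
  induction x with
  | zero => intro _; simp
  | succ x ih =>
    intro hx
    have ih' := ih (by omega)
    have e := hT.1 (p + 2) (w + 1) a (r - (x + 1)) (by omega)
    have e' : r - (x + 1) + 1 = r - x := by omega
    rw [e'] at e
    have e2 : (TT (p + 3) (w + 2) a (r - x) : ℝ) =
        TT (p + 3) (w + 2) a (r - (x + 1)) + TT (p + 2) (w + 1) a (r - (x + 1)) := by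
      exact_mod_cast e
    have b := NUX0_t1 hT p w r a hp x (by omega)
    have e3 : r - 1 - x = r - (x + 1) := by omega
    rw [e3] at b
    have e4 : ((x + 1).choose 2 : ℝ) = x + (x.choose 2 : ℝ) := by
      have : (x + 1).choose 2 = x.choose 1 + x.choose 2 := Nat.choose_succ_succ x 1
      rw [this, Nat.choose_one_right]
      push_cast
      ring
    rw [e4]
    push_cast
    linarith

theorem NUX0_thm (hT : TTRStmt) : NUX0Stmt := by
  intro p w r hp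
  obtain ⟨a₀, h0⟩ := NUX0_ev p w r hp
  refine ⟨a₀, fun a ha x hx => ?_⟩
  obtain ⟨ha1, hev⟩ := h0 a ha
  refine le_trans ?_ (NUX0_t2 hT p w r a hp x hx)
  have hr1 := hp.r1
  have hrp := hp.rp
  have hA : (0 : ℝ) < (a : ℝ) := by exact_mod_cast ha1
  have hr : (0 : ℝ) < (r : ℝ) := by exact_mod_cast hr1
  have hp4 : (0 : ℝ) < (p : ℝ) + 4 := by positivity
  have hM : (0 : ℝ) < ((p : ℝ) + 4) * a + r := by positivity
  have hB : (0 : ℝ) < (a : ℝ) ^ (p + 3 - r) * ((a : ℝ) + 1) ^ r := by positivity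
  have hD : ((p + 2).choose (w + 1) : ℝ) * (a : ℝ) ^ (w + 1) ≤
      (TT (p + 2) (w + 1) a (r - 1) : ℝ) := by
    exact_mod_cast (hT.2.2.1 (p + 2) (w + 1) a (r - 1) (by omega)).1
  have hD0 : (0 : ℝ) ≤ (TT (p + 2) (w + 1) a (r - 1) : ℝ) := Nat.cast_nonneg _
  have e1 : (a : ℝ) ^ (p + 3 - r + x) * ((a : ℝ) + 1) ^ (r - x) =
      ((a : ℝ) ^ (p + 3 - r) * ((a : ℝ) + 1) ^ r) * ((a : ℝ) / ((a : ℝ) + 1)) ^ x := by
    have : ((a : ℝ) + 1) ^ r = ((a : ℝ) + 1) ^ (r - x) * ((a : ℝ) + 1) ^ x := by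
      rw [← pow_add]; congr 1; omega
    rw [this, pow_add, div_pow]
    field_simp
  have el : lam p w r a * ((a : ℝ) ^ (p + 3 - r) * ((a : ℝ) + 1) ^ r) =
      (TT (p + 2) (w + 1) a (r - 1) : ℝ) / (((p : ℝ) + 4) * a + r) * (r * ((a : ℝ) + 1)) := by
    unfold lam
    field_simp
  have eL : Lm p w r a * ((a : ℝ) ^ (p + 3 - r) * ((a : ℝ) + 1) ^ r) =
      (TT (p + 2) (w + 1) a (r - 1) : ℝ) / (((p : ℝ) + 4) * a + r) *
        (((p : ℝ) + 4) * ((a : ℝ) + 1)) := by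
    unfold Lm
    calc lam p w r a * (((p : ℝ) + 4) / r) * ((a : ℝ) ^ (p + 3 - r) * ((a : ℝ) + 1) ^ r)
        = (lam p w r a * ((a : ℝ) ^ (p + 3 - r) * ((a : ℝ) + 1) ^ r)) * (((p : ℝ) + 4) / r) := by
          ring
      _ = _ := by rw [el]; field_simp
  set D : ℝ := (TT (p + 2) (w + 1) a (r - 1) : ℝ) with hDdef
  set M : ℝ := ((p : ℝ) + 4) * a + r with hMdef
  set B : ℝ := (a : ℝ) ^ (p + 3 - r) * ((a : ℝ) + 1) ^ r with hBdef
  set ρ : ℝ := (a : ℝ) / ((a : ℝ) + 1) with hρ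
  have e2 : lam p w r a * B + (Lm p w r a * x - lam p w r a) * (B * ρ ^ x) =
      D / M * ((r * ((a : ℝ) + 1)) * (1 - ρ ^ x) + (((p : ℝ) + 4) * ((a : ℝ) + 1)) * x * ρ ^ x) := by
    calc lam p w r a * B + (Lm p w r a * x - lam p w r a) * (B * ρ ^ x)
        = (lam p w r a * B) * (1 - ρ ^ x) + (Lm p w r a * B) * x * ρ ^ x := by ring
      _ = _ := by rw [el, eL]; ring
  rw [e1, e2]
  rcases Nat.eq_zero_or_pos x with hx0 | hx0
  · subst hx0
    simp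
  obtain ⟨k, rfl⟩ : ∃ k, x = k + 1 := ⟨x - 1, by omega⟩
  have hA1 : (0 : ℝ) < (a : ℝ) + 1 := by positivity
  have hρ0 : 0 < ρ := by positivity
  have f1 : ((a : ℝ) + 1) * ρ ^ (k + 1) = a * ρ ^ k := by
    rw [pow_succ, hρ]
    field_simp
  have f2 : ((a : ℝ) + 1) * (1 - ρ ^ (k + 1)) ≤ k + 1 := by
    have hb := one_add_mul_le_pow (a := -(1 / ((a : ℝ) + 1))) (by
      have : 1 / ((a : ℝ) + 1) ≤ 1 := by
        rw [div_le_one hA1]; linarith
      linarith) (k + 1)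
    have : 1 + -(1 / ((a : ℝ) + 1)) = ρ := by rw [hρ]; field_simp; ring
    rw [this] at hb
    push_cast at hb
    have h3 : ((a : ℝ) + 1) * (1 - ρ ^ (k + 1)) ≤
        ((a : ℝ) + 1) * (1 - (1 + ((k : ℝ) + 1) * -(1 / ((a : ℝ) + 1)))) :=
      mul_le_mul_of_nonneg_left (by linarith) hA1.le
    have h4 : ((a : ℝ) + 1) * (1 - (1 + ((k : ℝ) + 1) * -(1 / ((a : ℝ) + 1)))) = k + 1 := by
      field_simp
      ring
    linarith
  have f3 : ρ ^ k ≤ a / ((a : ℝ) + k) := by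
    have hb := one_add_mul_le_pow (a := 1 / (a : ℝ)) (by
      have : 0 < 1 / (a : ℝ) := by positivity
      linarith) k
    have h5 : (1 + 1 / (a : ℝ)) = ρ⁻¹ := by rw [hρ]; field_simp
    rw [h5, inv_pow] at hb
    have h6 : (0 : ℝ) < 1 + (k : ℝ) * (1 / a) := by positivity
    have h7 : ρ ^ k ≤ (1 + (k : ℝ) * (1 / a))⁻¹ := by
      rw [le_inv_comm₀ (by positivity) h6]
      exact hb
    have h8 : (1 + (k : ℝ) * (1 / a))⁻¹ = a / ((a : ℝ) + k) := by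
      field_simp
    rw [h8] at h7
    exact h7
  have hk : (k : ℝ) ≤ r := by
    have : k ≤ r := by omega
    exact_mod_cast this
  have hk0 : (0 : ℝ) ≤ (k : ℝ) := Nat.cast_nonneg k
  have hch : ((k + 1).choose 2 : ℝ) = ((k : ℝ) + 1) * k / 2 := by
    rw [Nat.cast_choose_two]
    push_cast
    ring
  rw [hch]
  -- the bracket
  have g1 : (r * ((a : ℝ) + 1)) * (1 - ρ ^ (k + 1)) +
      (((p : ℝ) + 4) * ((a : ℝ) + 1)) * ((k + 1 : ℕ) : ℝ) * ρ ^ (k + 1) ≤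
      ((k : ℝ) + 1) * (M - ((p : ℝ) + 4) * a * k / ((a : ℝ) + k)) := by
    have s1 : (r * ((a : ℝ) + 1)) * (1 - ρ ^ (k + 1)) ≤ r * ((k : ℝ) + 1) := by
      have := mul_le_mul_of_nonneg_left f2 hr.le
      linarith
    have s2 : (((p : ℝ) + 4) * ((a : ℝ) + 1)) * ((k + 1 : ℕ) : ℝ) * ρ ^ (k + 1) =
        ((p : ℝ) + 4) * ((k : ℝ) + 1) * (a * ρ ^ k) := by
      rw [← f1]
      push_cast
      ring
    have s3 : ((p : ℝ) + 4) * ((k : ℝ) + 1) * (a * ρ ^ k) ≤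
        ((p : ℝ) + 4) * ((k : ℝ) + 1) * (a * (a / ((a : ℝ) + k))) := by
      apply mul_le_mul_of_nonneg_left _ (by positivity)
      exact mul_le_mul_of_nonneg_left f3 hA.le
    have s4 : r * ((k : ℝ) + 1) + ((p : ℝ) + 4) * ((k : ℝ) + 1) * (a * (a / ((a : ℝ) + k))) =
        ((k : ℝ) + 1) * (M - ((p : ℝ) + 4) * a * k / ((a : ℝ) + k)) := by
      rw [hMdef]
      have : (a : ℝ) + k ≠ 0 := by positivity
      field_simp
      ring
    rw [s2]
    linarith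
  have g2 : D / M * ((r * ((a : ℝ) + 1)) * (1 - ρ ^ (k + 1)) +
      (((p : ℝ) + 4) * ((a : ℝ) + 1)) * ((k + 1 : ℕ) : ℝ) * ρ ^ (k + 1)) ≤
      D / M * (((k : ℝ) + 1) * (M - ((p : ℝ) + 4) * a * k / ((a : ℝ) + k))) :=
    mul_le_mul_of_nonneg_left g1 (by positivity)
  have g3 : D / M * (((k : ℝ) + 1) * (M - ((p : ℝ) + 4) * a * k / ((a : ℝ) + k))) =
      ((k : ℝ) + 1) * D - ((k : ℝ) + 1) * k / 2 *
        (2 * D * (((p : ℝ) + 4) * a) / (((a : ℝ) + k) * M)) := by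
    have : (a : ℝ) + k ≠ 0 := by positivity
    field_simp
  have g4 : 2 * ((p + 2).choose (w + 1) : ℝ) * (a : ℝ) ^ (w + 1) * (((p : ℝ) + 4) * a) /
        (((a : ℝ) + r) * M) ≤ 2 * D * (((p : ℝ) + 4) * a) / (((a : ℝ) + k) * M) := by
    apply div_le_div₀ (by positivity)
    · apply mul_le_mul_of_nonneg_right _ (by positivity)
      linarith
    · positivity
    · exact mul_le_mul_of_nonneg_right (by linarith) hM.le
  have g5 : ((k : ℝ) + 1) * k / 2 * (((p + 1).choose w : ℝ) * ((a : ℝ) + 1) ^ w +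
      (2 * ((p + 2).choose (w + 1) : ℝ) - (p + 1).choose w - 1 / 2) * (a : ℝ) ^ w) ≤ ((k : ℝ) + 1) * k / 2 *
        (2 * D * (((p : ℝ) + 4) * a) / (((a : ℝ) + k) * M)) :=
    mul_le_mul_of_nonneg_left (hev.trans g4) (by positivity)
  have g6 : ((k + 1 : ℕ) : ℝ) = (k : ℝ) + 1 := by push_cast; ring
  rw [g6] at g2 ⊢
  rw [g3] at g2
  linarith

end Pool.GU7
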